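import Mathlib

/-!
# Project ETH, module B4: counting small sets and the length of their code

* `card_small_le`: at most `(n+1)^s` subsets of `Fin n` have at most `s` elements.
* `length_le_of_small`: a duplicate-free list of such sets has length at most `(n+1)^s`.
* `code_length`, `input_length`: the exact lengths of the codes of S15289.
* `code_length_le_of_small`: the code of such a list has at most `(n+1)^(s+1)` symbols.
-/

set_option autoImplicit false

namespace Pool.Agent.Helper68.ETH

/-- the code of a list of subsets of `Fin n` in S15289 (rows, each followed by `none`) -/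
def rows {n : ℕ} (L : List (Finset (Fin n))) : List (Option Bool) :=
  (L.map (fun T : Finset (Fin n) =>
    List.ofFn (fun i : Fin n => some (decide (i ∈ T))) ++ [none])).flatten

/-- the code of a hypergraph in S15289 -/
def code {n : ℕ} (E : List (Finset (Fin n))) : List (Option Bool) :=
  List.replicate n (some true) ++ [none] ++ rows E

theorem rows_length {n : ℕ} (L : List (Finset (Fin n))) :
    (rows L).length = L.length * (n + 1) := by
  unfold rows
  induction L with
  | nil => simp
  | cons a l ih =>
    rw [List.map_cons, List.flatten_cons, List.length_append, ih]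
    simp [Nat.add_mul, Nat.add_comm]

theorem code_length {n : ℕ} (E : List (Finset (Fin n))) :
    (code E).length = (E.length + 1) * (n + 1) := by
  unfold code
  rw [List.length_append, List.length_append, rows_length]
  simp [Nat.add_mul]
  ring

/-- there are at most `(n+1)^s` subsets of `Fin n` with at most `s` elements -/
theorem card_small_le (n s : ℕ) :
    ((Finset.univ : Finset (Finset (Fin n))).filter (fun T => T.card ≤ s)).card ≤ (n + 1) ^ s := by
  classical
  let g : (Fin s → Option (Fin n)) → Finset (Fin n) :=
    fun f => Finset.univ.filter (fun v => ∃ i, f i = some v)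
  have hsub : ((Finset.univ : Finset (Finset (Fin n))).filter (fun T => T.card ≤ s)) ⊆
      (Finset.univ : Finset (Fin s → Option (Fin n))).image g := by
    intro T hT
    rw [Finset.mem_filter] at hT
    rw [Finset.mem_image]
    refine ⟨fun i => T.toList[(i : ℕ)]?, Finset.mem_univ _, ?_⟩
    ext v
    simp only [g, Finset.mem_filter, Finset.mem_univ, true_and]
    constructor
    · rintro ⟨i, hi⟩
      exact Finset.mem_toList.mp (List.mem_of_getElem? hi)
    · intro hv
      obtain ⟨j, hj, hjv⟩ := List.mem_iff_getElem.mp (Finset.mem_toList.mpr hv)
      have hjs : j < s := lt_of_lt_of_le (by simpa using hj) hT.2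
      exact ⟨⟨j, hjs⟩, by rw [List.getElem?_eq_some_iff]; exact ⟨hj, hjv⟩⟩
  calc _ ≤ ((Finset.univ : Finset (Fin s → Option (Fin n))).image g).card :=
        Finset.card_le_card hsub
    _ ≤ (Finset.univ : Finset (Fin s → Option (Fin n))).card := Finset.card_image_le
    _ = (n + 1) ^ s := by simp

/-- a duplicate-free list of sets with at most `s` elements is short -/
theorem length_le_of_small {n s : ℕ} {L : List (Finset (Fin n))} (hL : L.Nodup)
    (hs : ∀ T ∈ L, T.card ≤ s) : L.length ≤ (n + 1) ^ s := by
  classical
  rw [← List.toFinset_card_of_nodup hL]
  refine le_trans (Finset.card_le_card ?_) (card_small_le n s)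
  intro T hT
  rw [List.mem_toFinset] at hT
  exact Finset.mem_filter.mpr ⟨Finset.mem_univ _, hs T hT⟩

/-- the code of such a list is short -/
theorem rows_length_le_of_small {n s : ℕ} {L : List (Finset (Fin n))} (hL : L.Nodup)
    (hs : ∀ T ∈ L, T.card ≤ s) : (rows L).length ≤ (n + 1) ^ (s + 1) := by
  rw [rows_length, pow_succ]
  exact Nat.mul_le_mul_right _ (length_le_of_small hL hs)

/-- total input plus output length of S15289 on `E`, if all minimal transversals are small -/
theorem total_length_le {n s : ℕ} (E : List (Finset (Fin n))) {L : List (Finset (Fin n))}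
    (hL : L.Nodup) (hs : ∀ T ∈ L, T.card ≤ s) :
    (code E).length + (rows L).length ≤ (E.length + 1) * (n + 1) + (n + 1) ^ (s + 1) := by
  rw [code_length]
  exact Nat.add_le_add_left (rows_length_le_of_small hL hs) _

end Pool.Agent.Helper68.ETH
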