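import Mathlib
import Pool.Agent.Helper50.ETH.Defs
import Pool.Agent.Helper68.ETH.Count

/-!
# Project ETH, module B4 (second part): the input word and the total length

* `EE n cl`: the hypergraph `edges n cl` as a list of subsets of `Fin (nV n)`.
* `word_eq`: `word n cl` is the code of `EE n cl` in S15289.
* `total_le_bound`: if all minimal transversals have at most `2 * kap n` elements, the input and
  the output word together have at most `bound n` symbols.
-/

set_option autoImplicit false

namespace Pool.Agent.Helper68.ETH

open Pool.Agent.Helper36.PT Pool.Agent.Helper50.ETH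

/-- The edge number `e` as a subset of `Fin (nV n)`. -/
noncomputable def edge (n : ℕ) (cl : List (List (Option Bool))) (e : ℕ) : Finset (Fin (nV n)) :=
  by
    classical
    exact Finset.univ.filter (fun v : Fin (nV n) =>
      ¬ InS n cl (e / qq n ^ DD n) (e % qq n ^ DD n) v)

/-- The hypergraph `edges n cl` as a list of subsets of `Fin (nV n)`. -/
noncomputable def EE (n : ℕ) (cl : List (List (Option Bool))) : List (Finset (Fin (nV n))) :=
  (List.range (nE n)).map (edge n cl)

theorem mem_edge {n : ℕ} {cl : List (List (Option Bool))} {e : ℕ} {v : Fin (nV n)} :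
    v ∈ edge n cl e ↔ ¬ InS n cl (e / qq n ^ DD n) (e % qq n ^ DD n) v := by
  classical
  unfold edge
  simp

theorem mem_EE {n : ℕ} {cl : List (List (Option Bool))} {A : Finset (Fin (nV n))} :
    A ∈ EE n cl ↔ ∃ e < nE n, A = edge n cl e := by
  unfold EE
  simp only [List.mem_map, List.mem_range]
  constructor
  · rintro ⟨e, he, rfl⟩
    exact ⟨e, he, rfl⟩
  · rintro ⟨e, he, rfl⟩
    exact ⟨e, he, rfl⟩

theorem EE_length (n : ℕ) (cl : List (List (Option Bool))) : (EE n cl).length = nE n := by
  simp [EE]

theorem ofFn_eq_map_range {α : Type} (N : ℕ) (f : ℕ → α) :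
    List.ofFn (fun i : Fin N => f i) = (List.range N).map f := by
  rw [List.ofFn_eq_map]
  apply List.ext_getElem
  · simp
  · intro i h1 h2
    simp

theorem row_eq (n : ℕ) (cl : List (List (Option Bool))) (e : ℕ) :
    List.ofFn (fun i : Fin (nV n) => some (decide (i ∈ edge n cl e))) =
      (rowE n cl e).map some := by
  classical
  have h : (fun i : Fin (nV n) => some (decide (i ∈ edge n cl e))) =
      fun i : Fin (nV n) =>
        (fun v : ℕ => some (!dec (InS n cl (e / qq n ^ DD n) (e % qq n ^ DD n) v))) i := by
    funext i
    simp only [Option.some.injEq]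
    by_cases hi : InS n cl (e / qq n ^ DD n) (e % qq n ^ DD n) i
    · simp [mem_edge, hi, dec]
    · simp [mem_edge, hi, dec]
  rw [h, ofFn_eq_map_range (nV n)
    (fun v : ℕ => some (!dec (InS n cl (e / qq n ^ DD n) (e % qq n ^ DD n) v)))]
  unfold rowE
  rw [List.map_map]
  rfl

theorem word_eq_code (n : ℕ) (cl : List (List (Option Bool))) :
    word n cl = Pool.Agent.Helper68.ETH.code (EE n cl) := by
  unfold word Pool.Agent.Helper68.ETH.code rows EE edges
  rw [List.map_map, List.map_map]
  congr 2
  apply List.map_congr_left
  intro e _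
  simp only [Function.comp_apply]
  rw [row_eq]

/-- `word n cl` is literally the input word of S15289 for the hypergraph `EE n cl`. -/
theorem word_eq (n : ℕ) (cl : List (List (Option Bool))) :
    word n cl = List.replicate (nV n) (some true) ++ [none] ++
      ((EE n cl).map (fun T : Finset (Fin (nV n)) =>
        List.ofFn (fun i : Fin (nV n) => some (decide (i ∈ T))) ++ [none])).flatten :=
  word_eq_code n cl

theorem word_length (n : ℕ) (cl : List (List (Option Bool))) :
    (word n cl).length = (nE n + 1) * (nV n + 1) := by
  rw [word_eq_code, code_length, EE_length]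

/-- If all minimal transversals are small, everything is short. -/
theorem total_le_bound (n : ℕ) (cl : List (List (Option Bool))) {L : List (Finset (Fin (nV n)))}
    (hL : L.Nodup) (hs : ∀ T ∈ L, T.card ≤ 2 * kap n) :
    (word n cl).length + (L.map (fun T : Finset (Fin (nV n)) =>
      List.ofFn (fun i : Fin (nV n) => some (decide (i ∈ T))) ++ [none])).flatten.length ≤
      bound n := by
  have h1 := word_length n cl
  have h2 : (rows L).length ≤ (nV n + 1) ^ (2 * kap n + 1) := rows_length_le_of_small hL hs
  have h3 : (nV n + 1) ^ (2 * kap n + 1) ≤ (nV n + 1) ^ (2 * kap n + 2) :=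
    Nat.pow_le_pow_right (Nat.succ_pos _) (Nat.le_succ _)
  have h4 : (L.map (fun T : Finset (Fin (nV n)) =>
      List.ofFn (fun i : Fin (nV n) => some (decide (i ∈ T))) ++ [none])).flatten.length =
      (rows L).length := rfl
  unfold bound
  omega

/-- The number of sets in such a list. -/
theorem length_le_bound (n : ℕ) {L : List (Finset (Fin (nV n)))}
    (hL : L.Nodup) (hs : ∀ T ∈ L, T.card ≤ 2 * kap n) : L.length ≤ bound n := by
  have h1 := length_le_of_small hL hs
  have h3 : (nV n + 1) ^ (2 * kap n) ≤ (nV n + 1) ^ (2 * kap n + 2) :=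
    Nat.pow_le_pow_right (Nat.succ_pos _) (by omega)
  unfold bound
  omega

end Pool.Agent.Helper68.ETH
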